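import Mathlib
import Pool.Agent.H54.Zam3

namespace Pool.Agent.Results.MP_104b1e_lc.Subexp

open Pool.Agent.H54.Zam

theorem result (n : ℕ) (hn : 5 ≤ n) (f : (Fin n → Bool) → (Fin n → Bool) → Bool) :
    ∃ (R Q : Type) (_ : Fintype R) (_ : Fintype Q) (_ : Nonempty R) (_ : Nonempty Q) (m : ℕ)
      (A : Fin m → Set ((Fin n → Bool) × R)) (B : Fin m → Set ((Fin n → Bool) × Q)),
      IsZAM f A B ∧ (Nat.clog 2 m : ℝ) ≤ Real.exp (26 * √(n * Real.log n)) :=
  general n hn f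

end Pool.Agent.Results.MP_104b1e_lc.Subexp
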